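import Pool.Agent.V1215.MMS.M6

/-! # The punctured space of mm-spaces is contractible

For the box topology and for the concentration topology, the space of all mm-spaces other than the
one point space is contractible. `MM` is the type of mm-spaces; `XX BoxLE` (resp. `XX ConcLE`) is the
metric space of mm-spaces with the box distance (resp. the observable distance), where two mm-spaces
are identified when their distance is zero, `pt` is the class of the one point space and `XS` is the
complement of `pt`. The contraction is `(X, t) ↦ (1 - t) X ×₁ t {0, 1}`, the `ℓ¹` product of `X`
scaled by `1 - t` and of a two point space scaled by `t`. -/

set_option autoImplicit false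

namespace Pool.Agent.Results.MP_de432b_gt.PuncturedSpaceContractible

open Pool.Agent.V1215.MMS

theorem result : ContractibleSpace (XS BoxLE) ∧ ContractibleSpace (XS ConcLE) :=
  ⟨XS_contr, XS_contr⟩

end Pool.Agent.Results.MP_de432b_gt.PuncturedSpaceContractible
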